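import Mathlib

set_option autoImplicit false

namespace Pool.Agent.Results.MP_84e5ad_an.LinIndepOrbit

open Filter Topology Complex Set

/-- exponential polynomial -/
noncomputable def ep (F : Finset ℝ) (c : ℝ → ℂ) (l : ℂ) : ℂ := ∑ t ∈ F, c t * cexp (t * l)

theorem ep_differentiable (F : Finset ℝ) (c : ℝ → ℂ) : Differentiable ℂ (ep F c) := by
  unfold ep
  fun_prop

theorem ep_analyticAt (F : Finset ℝ) (c : ℝ → ℂ) (z : ℂ) : AnalyticAt ℂ (ep F c) z :=
  (ep_differentiable F c).analyticAt z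

theorem norm_cexp_mul (t : ℝ) (l : ℂ) : ‖cexp (t * l)‖ = Real.exp (t * l.re) := by
  rw [Complex.norm_exp]
  simp

/-- lower bound on the right -/
theorem ep_right {F : Finset ℝ} {c : ℝ → ℂ} {N : ℝ} (hN : N ∈ F) (hmax : ∀ t ∈ F, t ≤ N)
    (hc : c N ≠ 0) :
    ∃ a : ℝ, ∀ l : ℂ, a ≤ l.re → ‖c N‖ / 2 * Real.exp (N * l.re) ≤ ‖ep F c l‖ := by
  classical
  have h1 : Tendsto (fun x : ℝ => ∑ t ∈ F.erase N, ‖c t‖ * Real.exp ((t - N) * x)) atTop (𝓝 0) := by
    have : ∀ t ∈ F.erase N, Tendsto (fun x : ℝ => ‖c t‖ * Real.exp ((t - N) * x)) atTop (𝓝 0) := by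
      intro t ht
      rw [Finset.mem_erase] at ht
      have h2 : t - N < 0 := by
        have := lt_of_le_of_ne (hmax t ht.2) ht.1
        linarith
      have h3 : Tendsto (fun x : ℝ => (t - N) * x) atTop atBot :=
        tendsto_id.const_mul_atTop_of_neg h2
      simpa using (Real.tendsto_exp_atBot.comp h3).const_mul ‖c t‖
    simpa using tendsto_finsetSum _ this
  have h2 : ∀ᶠ x in atTop, ∑ t ∈ F.erase N, ‖c t‖ * Real.exp ((t - N) * x) < ‖c N‖ / 2 :=
    h1.eventually (gt_mem_nhds (by positivity))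
  obtain ⟨a, ha⟩ := eventually_atTop.mp h2
  refine ⟨a, ?_⟩
  intro l hl
  have h3 := (ha l.re hl).le
  have h4 : ep F c l = c N * cexp (N * l) + ∑ t ∈ F.erase N, c t * cexp (t * l) := by
    exact (Finset.add_sum_erase F (fun t => c t * cexp (t * l)) hN).symm
  rw [h4]
  have h5 : ‖∑ t ∈ F.erase N, c t * cexp (t * l)‖ ≤ ‖c N‖ / 2 * Real.exp (N * l.re) := by
    refine (norm_sum_le _ _).trans ?_
    calc ∑ t ∈ F.erase N, ‖c t * cexp (t * l)‖
        = (∑ t ∈ F.erase N, ‖c t‖ * Real.exp ((t - N) * l.re)) * Real.exp (N * l.re) := by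
          rw [Finset.sum_mul]
          apply Finset.sum_congr rfl
          intro t _
          rw [norm_mul, norm_cexp_mul, mul_assoc, ← Real.exp_add]
          congr 2
          ring
      _ ≤ _ := by gcongr
  have h6 : ‖c N * cexp (N * l)‖ = ‖c N‖ * Real.exp (N * l.re) := by
    rw [norm_mul, norm_cexp_mul]
  have h7 := norm_sub_le_norm_add (c N * cexp (N * l)) (∑ t ∈ F.erase N, c t * cexp (t * l))
  rw [h6] at h7
  linarith

theorem ep_left {F : Finset ℝ} {c : ℝ → ℂ} (h0 : (0 : ℝ) ∈ F) (hmin : ∀ t ∈ F, 0 ≤ t)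
    (hc : c 0 ≠ 0) :
    ∃ b : ℝ, ∀ l : ℂ, l.re ≤ b → ‖c 0‖ / 2 ≤ ‖ep F c l‖ := by
  classical
  have h1 : Tendsto (fun x : ℝ => ∑ t ∈ F.erase 0, ‖c t‖ * Real.exp (t * x)) atBot (𝓝 0) := by
    have : ∀ t ∈ F.erase 0, Tendsto (fun x : ℝ => ‖c t‖ * Real.exp (t * x)) atBot (𝓝 0) := by
      intro t ht
      rw [Finset.mem_erase] at ht
      have h2 : 0 < t := lt_of_le_of_ne (hmin t ht.2) (Ne.symm ht.1)
      have h3 : Tendsto (fun x : ℝ => t * x) atBot atBot :=
        tendsto_id.const_mul_atBot h2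
      simpa using (Real.tendsto_exp_atBot.comp h3).const_mul ‖c t‖
    simpa using tendsto_finsetSum _ this
  have h2 : ∀ᶠ x in atBot, ∑ t ∈ F.erase 0, ‖c t‖ * Real.exp (t * x) < ‖c 0‖ / 2 :=
    h1.eventually (gt_mem_nhds (by positivity))
  obtain ⟨b, hb⟩ := eventually_atBot.mp h2
  refine ⟨b, ?_⟩
  intro l hl
  have h3 := (hb l.re hl).le
  have h4 : ep F c l = c 0 + ∑ t ∈ F.erase 0, c t * cexp (t * l) := by
    unfold ep
    rw [← Finset.add_sum_erase _ _ h0]
    simp
  rw [h4]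
  have h5 : ‖∑ t ∈ F.erase 0, c t * cexp (t * l)‖ ≤ ‖c 0‖ / 2 := by
    refine (norm_sum_le _ _).trans ?_
    calc ∑ t ∈ F.erase 0, ‖c t * cexp (t * l)‖
        = (∑ t ∈ F.erase 0, ‖c t‖ * Real.exp (t * l.re)) := by
          apply Finset.sum_congr rfl
          intro t _
          rw [norm_mul, norm_cexp_mul]
      _ ≤ _ := h3
  have h7 := norm_sub_le_norm_add (c 0) (∑ t ∈ F.erase 0, c t * cexp (t * l))
  linarith

/-- an exponential polynomial that is not identically zero has a zero-free circle -/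
theorem exists_circle {F : Finset ℝ} {c : ℝ → ℂ} (hne : ∃ l, ep F c l ≠ 0) (R : ℝ) :
    ∃ r ∈ Icc R (R + 1), ∀ l : ℂ, ‖l‖ = r → ep F c l ≠ 0 := by
  have hfin : ({l : ℂ | ep F c l = 0} ∩ Metric.closedBall 0 (R + 1)).Finite := by
    by_contra hinf
    obtain ⟨z, _, hz⟩ := Set.Infinite.exists_accPt_of_subset_isCompact hinf
      (isCompact_closedBall (0 : ℂ) (R + 1)) inter_subset_right
    have h1 : ∃ᶠ l in 𝓝[≠] z, ep F c l = 0 := by
      rw [accPt_iff_frequently_nhdsNE] at hz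
      exact hz.mono (fun l hl => hl.1)
    have h2 : EqOn (ep F c) 0 univ :=
      AnalyticOnNhd.eqOn_zero_of_preconnected_of_frequently_eq_zero
        (fun l _ => ep_analyticAt F c l) isPreconnected_univ (mem_univ z) h1
    obtain ⟨l, hl⟩ := hne
    exact hl (h2 (mem_univ l))
  have h3 : (norm '' ({l : ℂ | ep F c l = 0} ∩ Metric.closedBall 0 (R + 1))).Finite := hfin.image _
  obtain ⟨r, hr, hr'⟩ : ∃ r ∈ Icc R (R + 1), r ∉ norm '' ({l : ℂ | ep F c l = 0} ∩ Metric.closedBall 0 (R + 1)) := by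
    by_contra hcon
    push Not at hcon
    have : (Icc R (R + 1)).Finite := h3.subset hcon
    exact (Icc_infinite (by linarith)) this
  refine ⟨r, hr, ?_⟩
  intro l hl h0
  apply hr'
  refine ⟨l, ⟨h0, ?_⟩, hl⟩
  rw [mem_closedBall_zero_iff, hl]
  exact hr.2

/-- uniform lower bounds on circles for all rotations -/
theorem uniform_circle {F : Finset ℝ} {c : ℝ → ℂ} (h0 : (0 : ℝ) ∈ F) (hmin : ∀ t ∈ F, 0 ≤ t)
    (hc : c 0 ≠ 0) (R : ℝ) :
    ∃ δ > 0, ∀ θ : F → Circle, ∃ r ∈ Icc R (R + 1), ∀ l : ℂ, ‖l‖ = r →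
      δ ≤ ‖∑ t : F, c t * θ t * cexp ((t : ℝ) * l)‖ := by
  have key : ∃ δ > 0, ∀ θ ∈ (univ : Set (F → Circle)), ∃ r ∈ Icc R (R + 1), ∀ l : ℂ, ‖l‖ = r →
      δ ≤ ‖∑ t : F, c t * θ t * cexp ((t : ℝ) * l)‖ := by
    apply isCompact_univ.induction_on (p := fun S : Set (F → Circle) => ∃ δ > 0, ∀ θ ∈ S, ∃ r ∈ Icc R (R + 1), ∀ l : ℂ, ‖l‖ = r →
      δ ≤ ‖∑ t : F, c t * θ t * cexp ((t : ℝ) * l)‖)
    · exact ⟨1, one_pos, fun θ h => absurd h (notMem_empty _)⟩
    · rintro s t hst ⟨δ, hδ, h⟩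
      exact ⟨δ, hδ, fun θ hθ => h θ (hst hθ)⟩
    · rintro s t ⟨δ, hδ, h⟩ ⟨δ', hδ', h'⟩
      refine ⟨min δ δ', lt_min hδ hδ', ?_⟩
      rintro θ (hθ | hθ)
      · obtain ⟨r, hr, hr'⟩ := h θ hθ
        exact ⟨r, hr, fun l hl => (min_le_left _ _).trans (hr' l hl)⟩
      · obtain ⟨r, hr, hr'⟩ := h' θ hθ
        exact ⟨r, hr, fun l hl => (min_le_right _ _).trans (hr' l hl)⟩
    · intro θ _
      classical
      let c' : ℝ → ℂ := fun t => if h : t ∈ F then c t * θ ⟨t, h⟩ else 0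
      have hep : ∀ l, ep F c' l = ∑ t : F, c t * θ t * cexp ((t : ℝ) * l) := by
        intro l
        unfold ep
        rw [← Finset.sum_coe_sort]
        apply Finset.sum_congr rfl
        intro t _
        simp [c']
      have hc' : c' 0 ≠ 0 := by
        simp only [c']
        rw [dif_pos h0]
        exact mul_ne_zero hc (Circle.coe_ne_zero _)
      obtain ⟨b, hb⟩ := ep_left h0 hmin hc'
      have hne : ∃ l, ep F c' l ≠ 0 := by
        refine ⟨(b : ℂ), ?_⟩
        have := hb (b : ℂ) (by simp)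
        intro h
        rw [h, norm_zero] at this
        have : 0 < ‖c' 0‖ := norm_pos_iff.mpr hc'
        linarith
      obtain ⟨r, hr, hr'⟩ := exists_circle hne R
      have hcont : Continuous (fun p : (F → Circle) × ℂ => ‖∑ t : F, c t * p.1 t * cexp ((t : ℝ) * p.2)‖) := by
        fun_prop
      -- minimum on the circle
      obtain ⟨δ, hδ, hmin'⟩ : ∃ δ > 0, ∀ l ∈ Metric.sphere (0 : ℂ) r, δ ≤ ‖∑ t : F, c t * θ t * cexp ((t : ℝ) * l)‖ := by
        have hco : ContinuousOn (fun l : ℂ => ‖∑ t : F, c t * θ t * cexp ((t : ℝ) * l)‖) (Metric.sphere (0 : ℂ) r) :=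
          (hcont.comp (continuous_const.prodMk continuous_id)).continuousOn
        rcases (Metric.sphere (0 : ℂ) r).eq_empty_or_nonempty with h | h
        · exact ⟨1, one_pos, by simp [h]⟩
        · obtain ⟨l0, hl0, hl0'⟩ := (isCompact_sphere (0 : ℂ) r).exists_isMinOn h hco
          refine ⟨_, ?_, hl0'⟩
          simp only [gt_iff_lt, norm_pos_iff]
          rw [← hep]
          exact hr' l0 (by simpa using hl0)
      have h2 : ∀ᶠ θ' in 𝓝 θ, ∀ l ∈ Metric.sphere (0 : ℂ) r, δ / 2 ≤ ‖∑ t : F, c t * θ' t * cexp ((t : ℝ) * l)‖ := by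
        apply (isCompact_sphere (0 : ℂ) r).eventually_forall_of_forall_eventually
        intro l hl
        have h3 : δ / 2 < ‖∑ t : F, c t * θ t * cexp ((t : ℝ) * l)‖ := by
          have := hmin' l hl
          linarith
        have h4 := hcont.continuousAt (x := (θ, l))
        exact (h4.eventually (lt_mem_nhds h3)).mono (fun p hp => hp.le)
      refine ⟨_, mem_nhdsWithin_of_mem_nhds h2, δ / 2, by positivity, ?_⟩
      intro θ' hθ'
      refine ⟨r, hr, fun l hl => hθ' l ?_⟩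
      simpa using hl
  obtain ⟨δ, hδ, h⟩ := key
  exact ⟨δ, hδ, fun θ => h θ (mem_univ _)⟩

theorem ep_shift (F : Finset ℝ) (c : ℝ → ℂ) (y : ℝ) (l : ℂ) :
    ep F c (l + y * I) = ∑ t : F, c t * (fun t : F => Circle.exp ((t : ℝ) * y)) t * cexp ((t : ℝ) * l) := by
  unfold ep
  rw [← Finset.sum_coe_sort]
  apply Finset.sum_congr rfl
  intro t _
  rw [Circle.coe_exp, mul_assoc, ← Complex.exp_add]
  congr 2
  push_cast
  ring

/-- quotient Liouville theorem -/
theorem quotient_liouville {F : Finset ℝ} {c : ℝ → ℂ} {N : ℝ} (h0 : (0 : ℝ) ∈ F)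
    (hmin : ∀ t ∈ F, 0 ≤ t) (hc0 : c 0 ≠ 0) (hN : N ∈ F) (hmax : ∀ t ∈ F, t ≤ N)
    (hcN : c N ≠ 0) {G : ℂ → ℂ} (hG : Differentiable ℂ G) {C : ℝ}
    (hGr : ∀ l : ℂ, 0 ≤ l.re → ‖G l‖ ≤ C * Real.exp (N * l.re))
    (hGl : ∀ l : ℂ, l.re ≤ 0 → ‖G l‖ ≤ C)
    (hlim : Tendsto (fun x : ℝ => ‖G x‖ / Real.exp (N * x)) atTop (𝓝 0))
    (hord : ∀ z, analyticOrderAt (ep F c) z ≤ analyticOrderAt G z) : ∀ l, G l = 0 := by
  classical
  obtain ⟨a, ha⟩ := ep_right hN hmax hcN
  obtain ⟨b, hb⟩ := ep_left h0 hmin hc0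
  have hcNpos : 0 < ‖c N‖ := norm_pos_iff.mpr hcN
  have hc0pos : 0 < ‖c 0‖ := norm_pos_iff.mpr hc0
  have hC : 0 ≤ C := (norm_nonneg _).trans (hGl 0 (by simp))
  have hNnn : 0 ≤ N := hmin N hN
  have hepne : ∃ l, ep F c l ≠ 0 := by
    refine ⟨(b : ℂ), ?_⟩
    have := hb (b : ℂ) (by simp)
    intro h
    rw [h, norm_zero] at this
    linarith
  -- the zeros are isolated
  have hiso : ∀ z, ∀ᶠ w in 𝓝[≠] z, ep F c w ≠ 0 := by
    intro z
    rcases (ep_analyticAt F c z).eventually_eq_zero_or_eventually_ne_zero with h | h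
    · exfalso
      have h2 : EqOn (ep F c) 0 univ :=
        AnalyticOnNhd.eqOn_zero_of_preconnected_of_eventuallyEq_zero
          (fun l _ => ep_analyticAt F c l) isPreconnected_univ (mem_univ z) h
      obtain ⟨l, hl⟩ := hepne
      exact hl (h2 (mem_univ l))
    · exact h
  have hmer : MeromorphicOn (G / ep F c) univ := fun z _ =>
    ((hG.analyticAt z).meromorphicAt).div (ep_analyticAt F c z).meromorphicAt
  set E := toMeromorphicNFOn (G / ep F c) univ with hE
  have hEmul : ∀ z, ∀ᶠ w in 𝓝[≠] z, ep F c w * E w = G w := by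
    intro z
    filter_upwards [hiso z, hmer.toMeromorphicNFOn_eq_self_on_nhdsNE (mem_univ z)] with w hw1 hw2
    rw [hE, hw2, Pi.div_apply]
    field_simp
  have hEan : ∀ z, AnalyticAt ℂ E z := by
    intro z
    have h1 := (meromorphicNFOn_toMeromorphicNFOn (G / ep F c) univ) (mem_univ z)
    rw [← h1.meromorphicOrderAt_nonneg_iff_analyticAt]
    rw [meromorphicOrderAt_toMeromorphicNFOn hmer (mem_univ z)]
    rw [meromorphicOrderAt_div (hG.analyticAt z).meromorphicAt (ep_analyticAt F c z).meromorphicAt]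
    rw [(hG.analyticAt z).meromorphicOrderAt_eq, (ep_analyticAt F c z).meromorphicOrderAt_eq]
    have hfin : analyticOrderAt (ep F c) z ≠ ⊤ := by
      intro htop
      rw [analyticOrderAt_eq_top] at htop
      have := (hiso z).and (htop.filter_mono nhdsWithin_le_nhds)
      obtain ⟨w, hw1, hw2⟩ := this.exists
      exact hw1 hw2
    have h2 := hord z
    obtain ⟨m, hm⟩ := ENat.ne_top_iff_exists.mp hfin
    rw [← hm] at h2 ⊢
    rcases eq_or_ne (analyticOrderAt G z) ⊤ with h3 | h3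
    · rw [h3]
      simp
    · obtain ⟨k, hk⟩ := ENat.ne_top_iff_exists.mp h3
      rw [← hk] at h2 ⊢
      have h4 : m ≤ k := by exact_mod_cast h2
      simp only [ENat.map_natCast]
      have h5 : ((k : ℤ) : WithTop ℤ) - ((m : ℤ) : WithTop ℤ) = (((k : ℤ) - (m : ℤ) : ℤ) : WithTop ℤ) := rfl
      have h6 : (0 : ℤ) ≤ (k : ℤ) - (m : ℤ) := by omega
      change (0 : WithTop ℤ) ≤ ((k : ℤ) : WithTop ℤ) - ((m : ℤ) : WithTop ℤ)
      rw [h5]
      exact_mod_cast h6
  have hEd : Differentiable ℂ E := fun z => (hEan z).differentiableAt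
  have hEG : ∀ z, ep F c z * E z = G z := by
    intro z
    have h1 : Tendsto (fun w => ep F c w * E w) (𝓝[≠] z) (𝓝 (ep F c z * E z)) :=
      (((ep_differentiable F c).continuous.mul hEd.continuous).tendsto z).mono_left nhdsWithin_le_nhds
    have h2 : Tendsto G (𝓝[≠] z) (𝓝 (G z)) := (hG.continuous.tendsto z).mono_left nhdsWithin_le_nhds
    exact tendsto_nhds_unique (h1.congr' (hEmul z)) h2
  set R := max |a| |b| + 1 with hR
  have hRpos : 0 < R := by
    have := abs_nonneg a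
    have := le_max_left |a| |b|
    linarith
  obtain ⟨δ, hδ, hcirc⟩ := uniform_circle (F := F) (c := c) h0 hmin hc0 R
  have hGb : ∀ l : ℂ, |l.re| ≤ R + 1 → ‖G l‖ ≤ C * Real.exp (N * (R + 1)) := by
    intro l hl
    have h1 := abs_le.mp hl
    rcases le_total 0 l.re with h | h
    · refine (hGr l h).trans ?_
      gcongr
      exact h1.2
    · refine (hGl l h).trans ?_
      have : 1 ≤ Real.exp (N * (R + 1)) := Real.one_le_exp (by positivity)
      nlinarith
  set M := max (2 * C / ‖c N‖) (max (2 * C / ‖c 0‖) (C * Real.exp (N * (R + 1)) / δ)) with hM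
  have hbound : ∀ l, ‖E l‖ ≤ M := by
    intro l
    have hEGn : ‖ep F c l‖ * ‖E l‖ = ‖G l‖ := by rw [← norm_mul, hEG]
    by_cases h1 : a ≤ l.re ∧ 0 ≤ l.re
    · refine le_trans ?_ (le_max_left _ _)
      rw [le_div_iff₀ hcNpos]
      have h2 := ha l h1.1
      have h3 := hGr l h1.2
      have h4 : ‖c N‖ / 2 * Real.exp (N * l.re) * ‖E l‖ ≤ C * Real.exp (N * l.re) := by
        calc ‖c N‖ / 2 * Real.exp (N * l.re) * ‖E l‖ ≤ ‖ep F c l‖ * ‖E l‖ := by gcongr
          _ = ‖G l‖ := hEGn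
          _ ≤ _ := h3
      have h5 : 0 < Real.exp (N * l.re) := Real.exp_pos _
      have h6 : (‖c N‖ / 2 * ‖E l‖) * Real.exp (N * l.re) ≤ C * Real.exp (N * l.re) := by linarith
      have h7 := le_of_mul_le_mul_right h6 h5
      linarith
    · by_cases h2 : l.re ≤ b ∧ l.re ≤ 0
      · refine le_trans (le_trans ?_ (le_max_left _ _)) (le_max_right _ _)
        rw [le_div_iff₀ hc0pos]
        have h3 := hb l h2.1
        have h4 := hGl l h2.2
        have h5 : ‖c 0‖ / 2 * ‖E l‖ ≤ C := by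
          calc ‖c 0‖ / 2 * ‖E l‖ ≤ ‖ep F c l‖ * ‖E l‖ := by gcongr
            _ = ‖G l‖ := hEGn
            _ ≤ _ := h4
        linarith
      · refine le_trans (le_trans ?_ (le_max_right _ _)) (le_max_right _ _)
        have hre : |l.re| < R := by
          have e1 := le_max_left |a| |b|
          have e2 := le_max_right |a| |b|
          have e3 := le_abs_self a
          have e4 := neg_abs_le b
          have e5 := abs_nonneg a
          have e6 := abs_nonneg b
          rw [abs_lt]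
          constructor
          · by_contra hcon
            push Not at hcon
            apply h2
            constructor <;> linarith
          · by_contra hcon
            push Not at hcon
            apply h1
            constructor <;> linarith
        obtain ⟨r, hr, hr'⟩ := hcirc (fun t : F => Circle.exp ((t : ℝ) * l.im))
        have hrpos : 0 < r := lt_of_lt_of_le hRpos hr.1
        apply Complex.norm_le_of_forall_mem_frontier_norm_le (U := Metric.ball ((l.im : ℂ) * I) r)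
          Metric.isBounded_ball hEd.diffContOnCl
        · intro w hw
          rw [frontier_ball _ hrpos.ne'] at hw
          have hw' : ‖w - (l.im : ℂ) * I‖ = r := by simpa [dist_eq_norm] using hw
          have h3 := hr' _ hw'
          rw [← ep_shift, sub_add_cancel] at h3
          have h4 : |w.re| ≤ R + 1 := by
            have h5 : |(w - (l.im : ℂ) * I).re| ≤ ‖w - (l.im : ℂ) * I‖ := Complex.abs_re_le_norm _
            have h6 : (w - (l.im : ℂ) * I).re = w.re := by simp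
            rw [h6, hw'] at h5
            exact h5.trans hr.2
          have h5 := hGb w h4
          rw [le_div_iff₀ hδ]
          calc ‖E w‖ * δ ≤ ‖E w‖ * ‖ep F c w‖ := by gcongr
            _ = ‖G w‖ := by rw [mul_comm, ← norm_mul, hEG]
            _ ≤ _ := h5
        · rw [closure_ball _ hrpos.ne', Metric.mem_closedBall, dist_eq_norm]
          have h3 : l - (l.im : ℂ) * I = (l.re : ℂ) := by
            apply Complex.ext <;> simp
          rw [h3, Complex.norm_real, Real.norm_eq_abs]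
          exact hre.le.trans hr.1
  obtain ⟨e0, he0⟩ := hEd.exists_const_forall_eq_of_bounded (by
    rw [isBounded_iff_forall_norm_le]
    refine ⟨M, ?_⟩
    rintro _ ⟨l, rfl⟩
    exact hbound l)
  have he : e0 = 0 := by
    have h1 : ∀ᶠ x : ℝ in atTop, ‖c N‖ / 2 * ‖e0‖ ≤ ‖G x‖ / Real.exp (N * x) := by
      filter_upwards [eventually_ge_atTop a] with x hx
      rw [le_div_iff₀ (Real.exp_pos _), ← hEG, he0, norm_mul]
      have h2 := ha (x : ℂ) (by simpa using hx)
      simp only [ofReal_re] at h2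
      calc ‖c N‖ / 2 * ‖e0‖ * Real.exp (N * x) = (‖c N‖ / 2 * Real.exp (N * x)) * ‖e0‖ := by ring
        _ ≤ _ := by gcongr
    have h2 := ge_of_tendsto hlim h1
    have h3 : 0 ≤ ‖e0‖ := norm_nonneg _
    have h4 : ‖e0‖ = 0 := by
      by_contra h
      have : 0 < ‖e0‖ := lt_of_le_of_ne h3 (Ne.symm h)
      have : 0 < ‖c N‖ / 2 * ‖e0‖ := by positivity
      linarith
    exact norm_eq_zero.mp h4
  intro l
  rw [← hEG, he0, he, mul_zero]


/-! scalars -/

section scalars

variable {𝕜 : Type*} [RCLike 𝕜]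

/-- the canonical embedding of the scalar field in the complex numbers -/
noncomputable def iota : 𝕜 →+* ℂ where
  toFun x := ⟨RCLike.re x, RCLike.im x⟩
  map_one' := by apply Complex.ext <;> simp
  map_mul' x y := by apply Complex.ext <;> simp
  map_zero' := by apply Complex.ext <;> simp
  map_add' x y := by apply Complex.ext <;> simp

theorem norm_iota (x : 𝕜) : ‖iota x‖ = ‖x‖ := by
  have h1 : ‖iota x‖ ^ 2 = ‖x‖ ^ 2 := by
    rw [Complex.sq_norm, Complex.normSq_apply, RCLike.norm_sq_eq_def]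
    rfl
  exact (sq_eq_sq₀ (norm_nonneg _) (norm_nonneg _)).mp h1

instance : RingHomIsometric (iota : 𝕜 →+* ℂ) := ⟨norm_iota _⟩

theorem continuous_iota : Continuous (iota : 𝕜 → ℂ) :=
  AddMonoidHomClass.continuous_of_bound (iota : 𝕜 →+* ℂ) 1 (fun x => by rw [one_mul, norm_iota])

theorem iota_ne_zero {x : 𝕜} (hx : x ≠ 0) : iota x ≠ 0 := by
  rw [← norm_pos_iff, norm_iota, norm_pos_iff]
  exact hx

theorem iota_natCast (n : ℕ) : iota ((n : ℕ) : 𝕜) = (n : ℂ) := map_natCast _ _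

end scalars

section core

variable {𝕜 : Type*} [RCLike 𝕜] {X : Type*} [NormedAddCommGroup X] [NormedSpace 𝕜 X]
  [CompleteSpace X] {T : ℝ → X →L[𝕜] X} (hTc : ∀ x, Continuous (fun t => T t x))
  (φ : X →L[𝕜] 𝕜)

/-- scalar orbit function -/
noncomputable def u (T : ℝ → X →L[𝕜] X) (φ : X →L[𝕜] 𝕜) (x : X) (s : ℝ) : ℂ := iota (φ (T s x))

/-- integrand -/
noncomputable def w (T : ℝ → X →L[𝕜] X) (φ : X →L[𝕜] 𝕜) (l : ℂ) (x : X) (s : ℝ) : ℂ :=
  cexp (-(s : ℂ) * l) * u T φ x s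

noncomputable def Φ (T : ℝ → X →L[𝕜] X) (φ : X →L[𝕜] 𝕜) (l : ℂ) (t : ℝ) (x : X) : ℂ :=
  ∫ s in (0:ℝ)..t, w T φ l x s

include hTc

omit [CompleteSpace X] in
theorem continuous_u (x : X) : Continuous (u T φ x) :=
  continuous_iota.comp (φ.continuous.comp (hTc x))

omit [CompleteSpace X] in
theorem continuous_w (l : ℂ) (x : X) : Continuous (w T φ l x) := by
  unfold w
  have := continuous_u hTc φ x
  fun_prop

theorem exists_M (N : ℝ) : ∃ M : ℝ, 0 ≤ M ∧ ∀ s ∈ Icc (0:ℝ) N, ‖T s‖ ≤ M := by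
  have h1 : ∃ C', ∀ i : Icc (0:ℝ) N, ‖T i‖ ≤ C' := by
    apply banach_steinhaus
    intro x
    obtain ⟨C, hC⟩ := (isCompact_Icc (a := (0:ℝ)) (b := N)).exists_bound_of_continuousOn (hTc x).continuousOn
    exact ⟨C, fun i => hC i i.2⟩
  obtain ⟨C, hC⟩ := h1
  exact ⟨max C 0, le_max_right _ _, fun s hs => (hC ⟨s, hs⟩).trans (le_max_left _ _)⟩

theorem exists_bound (N : ℝ) : ∃ M : ℝ, 0 ≤ M ∧ ∀ s ∈ Icc (0:ℝ) N, ∀ x, ‖u T φ x s‖ ≤ M * ‖x‖ := by
  obtain ⟨M, hM, h⟩ := exists_M hTc N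
  refine ⟨‖φ‖ * M, by positivity, ?_⟩
  intro s hs x
  unfold u
  rw [norm_iota]
  calc ‖φ (T s x)‖ ≤ ‖φ‖ * ‖T s x‖ := φ.le_opNorm _
    _ ≤ ‖φ‖ * (M * ‖x‖) := by
      gcongr
      exact (T s).le_of_opNorm_le (h s hs) x
    _ = _ := by ring

omit [CompleteSpace X] in
theorem differentiable_Φ (t : ℝ) (x : X) : Differentiable ℂ (fun l => Φ T φ l t x) := by
  intro l0
  have hu := continuous_u hTc φ x
  have h := intervalIntegral.hasDerivAt_integral_of_dominated_loc_of_deriv_le (μ := MeasureTheory.volume)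
    (F := fun (l : ℂ) (s : ℝ) => w T φ l x s) (F' := fun (l : ℂ) (s : ℝ) => -(s : ℂ) * w T φ l x s)
    (x₀ := l0) (s := Metric.ball l0 1) (a := 0) (b := t)
    (bound := fun s => |s| * (Real.exp (|s| * (‖l0‖ + 1)) * ‖u T φ x s‖))
    (Metric.ball_mem_nhds l0 one_pos) ?_ ?_ ?_ ?_ ?_ ?_
  · exact h.2.differentiableAt
  · exact Eventually.of_forall (fun l => (continuous_w hTc φ l x).aestronglyMeasurable)
  · exact (continuous_w hTc φ l0 x).intervalIntegrable _ _
  · have : Continuous (fun s : ℝ => -(s : ℂ) * w T φ l0 x s) := by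
      have := continuous_w hTc φ l0 x
      fun_prop
    exact this.aestronglyMeasurable
  · apply Eventually.of_forall
    intro s _ l hl
    rw [norm_mul, norm_neg, Complex.norm_real, Real.norm_eq_abs]
    unfold w
    rw [norm_mul, Complex.norm_exp]
    gcongr
    refine (le_abs_self _).trans ((Complex.abs_re_le_norm _).trans ?_)
    rw [norm_mul, norm_neg, Complex.norm_real, Real.norm_eq_abs]
    gcongr
    rw [Metric.mem_ball, dist_eq_norm] at hl
    calc ‖l‖ = ‖l0 + (l - l0)‖ := by congr 1; ring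
      _ ≤ ‖l0‖ + ‖l - l0‖ := norm_add_le _ _
      _ ≤ _ := by linarith
  · apply Continuous.intervalIntegrable
    fun_prop
  · apply Eventually.of_forall
    intro s _ l _
    unfold w
    have h1 : HasDerivAt (fun l : ℂ => -(s : ℂ) * l) (-(s : ℂ)) l := by
      simpa using (hasDerivAt_id l).const_mul (-(s : ℂ))
    have h2 := (h1.cexp).mul_const (u T φ x s)
    convert! h2 using 1
    ring


omit [CompleteSpace X] hTc in
theorem Φ_bound (l : ℂ) {t N : ℝ} (ht : 0 ≤ t) (htN : t ≤ N) {M : ℝ}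
    (hM : ∀ s ∈ Icc (0:ℝ) N, ∀ x, ‖u T φ x s‖ ≤ M * ‖x‖) (x : X) :
    ‖Φ T φ l t x‖ ≤ (Real.exp (t * ‖l‖) * (M * ‖x‖)) * t := by
  unfold Φ
  have h := intervalIntegral.norm_integral_le_of_norm_le_const (a := 0) (b := t) (f := w T φ l x)
    (C := Real.exp (t * ‖l‖) * (M * ‖x‖)) ?_
  · rwa [sub_zero, abs_of_nonneg ht] at h
  · intro s hs
    rw [uIoc_of_le ht] at hs
    unfold w
    rw [norm_mul, Complex.norm_exp]
    have h1 : ‖u T φ x s‖ ≤ M * ‖x‖ := hM s ⟨hs.1.le, hs.2.trans htN⟩ x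
    have h2 : (-(s : ℂ) * l).re ≤ t * ‖l‖ := by
      refine (le_abs_self _).trans ((Complex.abs_re_le_norm _).trans ?_)
      rw [norm_mul, norm_neg, Complex.norm_real, Real.norm_eq_abs, abs_of_pos hs.1]
      gcongr
      exact hs.2
    gcongr

omit [CompleteSpace X] hTc in
theorem u_add (x y : X) (s : ℝ) : u T φ (x + y) s = u T φ x s + u T φ y s := by
  simp [u]

omit [CompleteSpace X] hTc in
theorem u_smul (a : 𝕜) (x : X) (s : ℝ) : u T φ (a • x) s = iota a * u T φ x s := by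
  simp [u]

/-- continuous semilinear version -/
noncomputable def Φm (l : ℂ) (t : ℝ) (ht : 0 ≤ t) : X →SL[(iota : 𝕜 →+* ℂ)] ℂ :=
  LinearMap.mkContinuous
    { toFun := fun x => Φ T φ l t x
      map_add' := by
        intro x y
        unfold Φ
        rw [← intervalIntegral.integral_add ((continuous_w hTc φ l x).intervalIntegrable _ _)
          ((continuous_w hTc φ l y).intervalIntegrable _ _)]
        apply intervalIntegral.integral_congr
        intro s _
        simp only [w, u_add]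
        ring
      map_smul' := by
        intro a x
        unfold Φ
        rw [smul_eq_mul, ← intervalIntegral.integral_const_mul]
        apply intervalIntegral.integral_congr
        intro s _
        simp only [w, u_smul]
        ring }
    (Real.exp (t * ‖l‖) * (exists_bound hTc φ t).choose * t) (by
      intro x
      have h := Φ_bound φ l ht le_rfl (exists_bound hTc φ t).choose_spec.2 x
      refine h.trans (le_of_eq ?_)
      ring)

theorem Φm_apply (l : ℂ) (t : ℝ) (ht : 0 ≤ t) (x : X) : Φm hTc φ l t ht x = Φ T φ l t x := rfl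

/-- the numerator -/
noncomputable def G (T : ℝ → X →L[𝕜] X) (φ : X →L[𝕜] 𝕜) (F : Finset ℝ) (c : ℝ → 𝕜) (x : X) (l : ℂ) : ℂ :=
  ∑ t ∈ F, iota (c t) * cexp (t * l) * Φ T φ l t x

variable {F : Finset ℝ} {c : ℝ → 𝕜} (hF : ∀ t ∈ F, 0 ≤ t)

omit [CompleteSpace X] in
theorem G_differentiable (x : X) : Differentiable ℂ (G T φ F c x) := by
  unfold G
  apply Differentiable.fun_sum
  intro t _
  have := differentiable_Φ hTc φ t x
  fun_prop

omit hTc in
/-- continuity in `x` -/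
theorem G_clm (hTc : ∀ x, Continuous (fun t => T t x)) (hF : ∀ t ∈ F, 0 ≤ t) (l : ℂ) :
    ∃ g : X →SL[(iota : 𝕜 →+* ℂ)] ℂ, ∀ x, g x = G T φ F c x l := by
  classical
  refine ⟨∑ t : F, (iota (c t) * cexp ((t : ℝ) * l)) • Φm hTc φ l t (hF t t.2), ?_⟩
  intro x
  unfold G
  rw [← Finset.sum_coe_sort F (fun t => iota (c t) * cexp (t * l) * Φ T φ l t x)]
  simp [Φm_apply]

omit [CompleteSpace X] hTc in
theorem G_right {N : ℝ} (hN : ∀ t ∈ F, t ≤ N) (hF : ∀ t ∈ F, 0 ≤ t) {M : ℝ}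
    (hM : ∀ s ∈ Icc (0:ℝ) N, ∀ x, ‖u T φ x s‖ ≤ M * ‖x‖) (x : X) (l : ℂ) (hl : 0 ≤ l.re) :
    ‖G T φ F c x l‖ ≤ ((∑ t ∈ F, ‖c t‖ * t) * (M * ‖x‖)) * Real.exp (N * l.re) := by
  unfold G
  refine (norm_sum_le _ _).trans ?_
  rw [Finset.sum_mul, Finset.sum_mul]
  apply Finset.sum_le_sum
  intro t ht
  have ht0 := hF t ht
  have h1 : ‖cexp (t * l) * Φ T φ l t x‖ ≤ (Real.exp (N * l.re) * (M * ‖x‖)) * t := by
    unfold Φ
    rw [← intervalIntegral.integral_const_mul]
    have h := intervalIntegral.norm_integral_le_of_norm_le_const (a := 0) (b := t)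
      (f := fun s => cexp (t * l) * w T φ l x s)
      (C := Real.exp (N * l.re) * (M * ‖x‖)) ?_
    · rwa [sub_zero, abs_of_nonneg ht0] at h
    · intro s hs
      rw [uIoc_of_le ht0] at hs
      unfold w
      rw [← mul_assoc, ← Complex.exp_add, norm_mul, Complex.norm_exp]
      have h1 : ‖u T φ x s‖ ≤ M * ‖x‖ := hM s ⟨hs.1.le, hs.2.trans (hN t ht)⟩ x
      have h2 : ((t : ℂ) * l + -(s : ℂ) * l).re ≤ N * l.re := by
        simp only [add_re, mul_re, ofReal_re, ofReal_im, zero_mul, sub_zero, neg_re, neg_im, neg_zero]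
        have := hN t ht
        nlinarith [hs.1]
      gcongr
  calc ‖iota (c t) * cexp (t * l) * Φ T φ l t x‖ = ‖c t‖ * ‖cexp (t * l) * Φ T φ l t x‖ := by
        rw [mul_assoc, norm_mul, norm_iota]
    _ ≤ ‖c t‖ * ((Real.exp (N * l.re) * (M * ‖x‖)) * t) := by gcongr
    _ = _ := by ring

omit [CompleteSpace X] hTc in
theorem G_left {N : ℝ} (hN : ∀ t ∈ F, t ≤ N) (hF : ∀ t ∈ F, 0 ≤ t) {M : ℝ}
    (hM : ∀ s ∈ Icc (0:ℝ) N, ∀ x, ‖u T φ x s‖ ≤ M * ‖x‖) (x : X) (l : ℂ) (hl : l.re ≤ 0) :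
    ‖G T φ F c x l‖ ≤ (∑ t ∈ F, ‖c t‖ * t) * (M * ‖x‖) := by
  unfold G
  refine (norm_sum_le _ _).trans ?_
  rw [Finset.sum_mul]
  apply Finset.sum_le_sum
  intro t ht
  have ht0 := hF t ht
  have h1 : ‖cexp (t * l) * Φ T φ l t x‖ ≤ (1 * (M * ‖x‖)) * t := by
    unfold Φ
    rw [← intervalIntegral.integral_const_mul]
    have h := intervalIntegral.norm_integral_le_of_norm_le_const (a := 0) (b := t)
      (f := fun s => cexp (t * l) * w T φ l x s)
      (C := 1 * (M * ‖x‖)) ?_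
    · rwa [sub_zero, abs_of_nonneg ht0] at h
    · intro s hs
      rw [uIoc_of_le ht0] at hs
      unfold w
      rw [← mul_assoc, ← Complex.exp_add, norm_mul, Complex.norm_exp]
      have h1 : ‖u T φ x s‖ ≤ M * ‖x‖ := hM s ⟨hs.1.le, hs.2.trans (hN t ht)⟩ x
      have h2 : ((t : ℂ) * l + -(s : ℂ) * l).re ≤ 0 := by
        simp only [add_re, mul_re, ofReal_re, ofReal_im, zero_mul, sub_zero, neg_re, neg_im, neg_zero]
        nlinarith [hs.2]
      have h3 : Real.exp ((t : ℂ) * l + -(s : ℂ) * l).re ≤ 1 := Real.exp_le_one_iff.mpr h2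
      gcongr
  calc ‖iota (c t) * cexp (t * l) * Φ T φ l t x‖ = ‖c t‖ * ‖cexp (t * l) * Φ T φ l t x‖ := by
        rw [mul_assoc, norm_mul, norm_iota]
    _ ≤ ‖c t‖ * ((1 * (M * ‖x‖)) * t) := by gcongr
    _ = _ := by ring

omit [CompleteSpace X] hTc in
theorem G_lim {N : ℝ} (hN : ∀ t ∈ F, t ≤ N) (hF : ∀ t ∈ F, 0 ≤ t) {M : ℝ} (hM0 : 0 ≤ M)
    (hM : ∀ s ∈ Icc (0:ℝ) N, ∀ x, ‖u T φ x s‖ ≤ M * ‖x‖) (x : X) :
    Tendsto (fun r : ℝ => ‖G T φ F c x r‖ / Real.exp (N * r)) atTop (𝓝 0) := by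
  have hb : ∀ r : ℝ, 0 < r → ‖G T φ F c x r‖ / Real.exp (N * r) ≤ (∑ t ∈ F, ‖c t‖) * (M * ‖x‖) * r⁻¹ := by
    intro r hr
    rw [div_le_iff₀ (Real.exp_pos _)]
    unfold G
    refine (norm_sum_le _ _).trans ?_
    rw [Finset.sum_mul, Finset.sum_mul, Finset.sum_mul]
    apply Finset.sum_le_sum
    intro t ht
    have ht0 := hF t ht
    have h1 : ‖Φ T φ r t x‖ ≤ (M * ‖x‖) * r⁻¹ := by
      unfold Φ
      have h2 : ‖∫ s in (0:ℝ)..t, w T φ r x s‖ ≤ ∫ s in (0:ℝ)..t, (M * ‖x‖) * Real.exp (-(s * r)) := by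
        apply intervalIntegral.norm_integral_le_of_norm_le ht0
        · apply Eventually.of_forall
          intro s hs
          unfold w
          rw [norm_mul, Complex.norm_exp, mul_comm]
          have h3 : (-(s : ℂ) * (r : ℂ)).re = -(s * r) := by simp
          rw [h3]
          have h4 := hM s ⟨hs.1.le, hs.2.trans (hN t ht)⟩ x
          gcongr
        · apply Continuous.intervalIntegrable
          fun_prop
      refine h2.trans ?_
      rw [intervalIntegral.integral_const_mul]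
      have h5 : ∫ s in (0:ℝ)..t, Real.exp (-(s * r)) = (1 - Real.exp (-(t * r))) / r := by
        have h6 : ∀ s ∈ uIcc (0:ℝ) t, HasDerivAt (fun s : ℝ => -(Real.exp (-(s * r)) / r)) (Real.exp (-(s * r))) s := by
          intro s _
          have h7 : HasDerivAt (fun s : ℝ => -(s * r)) (-r) s := by
            simpa using ((hasDerivAt_id s).mul_const r).fun_neg
          have h8 := ((h7.exp).div_const r).fun_neg
          convert! h8 using 1
          field_simp
        rw [intervalIntegral.integral_eq_sub_of_hasDerivAt h6 (by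
          apply Continuous.intervalIntegrable
          fun_prop)]
        simp
        ring
      rw [h5]
      have h9 : (1 - Real.exp (-(t * r))) / r ≤ r⁻¹ := by
        rw [div_eq_mul_inv]
        have : 1 - Real.exp (-(t * r)) ≤ 1 := by
          have := Real.exp_pos (-(t * r))
          linarith
        have hr' : 0 ≤ r⁻¹ := by positivity
        nlinarith
      gcongr
    calc ‖iota (c t) * cexp (t * (r : ℂ)) * Φ T φ r t x‖ = ‖c t‖ * Real.exp (t * r) * ‖Φ T φ r t x‖ := by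
          rw [norm_mul, norm_mul, norm_iota, norm_cexp_mul]
          simp
      _ ≤ ‖c t‖ * Real.exp (N * r) * ((M * ‖x‖) * r⁻¹) := by
          gcongr
          exact hN t ht
      _ = _ := by ring
  apply squeeze_zero' (g := fun r : ℝ => (∑ t ∈ F, ‖c t‖) * (M * ‖x‖) * r⁻¹)
  · exact Eventually.of_forall (fun r => by positivity)
  · filter_upwards [eventually_gt_atTop 0] with r hr
    exact hb r hr
  · simpa using tendsto_inv_atTop_zero.const_mul ((∑ t ∈ F, ‖c t‖) * (M * ‖x‖))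


omit [CompleteSpace X] in
/-- basic relation -/
theorem G_shift (hTadd : ∀ s t : ℝ, 0 ≤ s → 0 ≤ t → T (s + t) = (T s).comp (T t))
    (hF : ∀ t ∈ F, 0 ≤ t) (hrel : ∀ x, ∑ t ∈ F, c t • T t x = 0) (x : X) (l : ℂ) {h : ℝ} (hh : 0 ≤ h) :
    G T φ F c (T h x) l = cexp (h * l) * (G T φ F c x l - ep F (fun t => iota (c t)) l * Φ T φ l h x) := by
  have hw : Continuous (w T φ l x) := continuous_w hTc φ l x
  have hint : ∀ a b, IntervalIntegrable (w T φ l x) MeasureTheory.volume a b := fun a b => hw.intervalIntegrable a b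
  -- shift
  have h1 : ∀ t ∈ F, Φ T φ l t (T h x) = cexp (h * l) * (Φ T φ l (t + h) x - Φ T φ l h x) := by
    intro t ht
    have ht0 := hF t ht
    unfold Φ
    have h2 : ∫ s in (0:ℝ)..t, w T φ l (T h x) s = ∫ s in (0:ℝ)..t, cexp (h * l) * w T φ l x (s + h) := by
      apply intervalIntegral.integral_congr
      intro s hs
      rw [uIcc_of_le ht0] at hs
      simp only [w, u]
      rw [hTadd s h hs.1 hh, ContinuousLinearMap.comp_apply, ← mul_assoc, ← Complex.exp_add]
      congr 2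
      push_cast
      ring
    rw [h2, intervalIntegral.integral_const_mul, intervalIntegral.integral_comp_add_right (fun s => w T φ l x s) h, zero_add]
    rw [intervalIntegral.integral_interval_sub_left (hint _ _) (hint _ _)]
  have h3 : ∑ t ∈ F, iota (c t) * cexp (t * l) * (Φ T φ l (t + h) x - Φ T φ l t x) = 0 := by
    have h4 : ∀ t ∈ F, iota (c t) * cexp (t * l) * (Φ T φ l (t + h) x - Φ T φ l t x)
        = ∫ s in (0:ℝ)..h, iota (c t) * (cexp (-(s : ℂ) * l) * u T φ x (s + t)) := by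
      intro t ht
      unfold Φ
      rw [intervalIntegral.integral_interval_sub_left (hint _ _) (hint _ _)]
      have h5 : ∫ s in (t)..(t + h), w T φ l x s = ∫ s in (0:ℝ)..h, w T φ l x (s + t) := by
        rw [intervalIntegral.integral_comp_add_right (fun s => w T φ l x s) t, zero_add, add_comm]
      rw [h5, ← intervalIntegral.integral_const_mul]
      apply intervalIntegral.integral_congr
      intro s _
      simp only [w]
      have h6 : cexp (t * l) * cexp (-((s + t : ℝ) : ℂ) * l) = cexp (-(s : ℂ) * l) := by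
        rw [← Complex.exp_add]
        congr 1
        push_cast
        ring
      calc iota (c t) * cexp (t * l) * (cexp (-((s + t : ℝ) : ℂ) * l) * u T φ x (s + t))
          = iota (c t) * ((cexp (t * l) * cexp (-((s + t : ℝ) : ℂ) * l)) * u T φ x (s + t)) := by ring
        _ = _ := by rw [h6]
    rw [Finset.sum_congr rfl h4, ← intervalIntegral.integral_finsetSum]
    · have h7 : ∫ s in (0:ℝ)..h, ∑ t ∈ F, iota (c t) * (cexp (-(s : ℂ) * l) * u T φ x (s + t))
          = ∫ s in (0:ℝ)..h, (0 : ℂ) := by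
        apply intervalIntegral.integral_congr
        intro s hs
        rw [uIcc_of_le hh] at hs
        simp only
        have h8 : ∑ t ∈ F, iota (c t) * (cexp (-(s : ℂ) * l) * u T φ x (s + t))
            = cexp (-(s : ℂ) * l) * iota (φ (T s (∑ t ∈ F, c t • T t x))) := by
          rw [map_sum, map_sum, map_sum, Finset.mul_sum]
          apply Finset.sum_congr rfl
          intro t ht
          simp only [u]
          rw [hTadd s t hs.1 (hF t ht)]
          simp
          ring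
        rw [h8, hrel]
        simp
      rw [h7]
      simp
    · intro t _
      apply Continuous.intervalIntegrable
      have := continuous_u hTc φ x
      fun_prop
  unfold G ep
  rw [Finset.sum_congr rfl (fun t ht => by rw [h1 t ht])]
  have h9 : ∑ t ∈ F, iota (c t) * cexp (t * l) * Φ T φ l (t + h) x = ∑ t ∈ F, iota (c t) * cexp (t * l) * Φ T φ l t x := by
    have : ∑ t ∈ F, iota (c t) * cexp (t * l) * Φ T φ l (t + h) x - ∑ t ∈ F, iota (c t) * cexp (t * l) * Φ T φ l t x = 0 := by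
      rw [← Finset.sum_sub_distrib, ← h3]
      apply Finset.sum_congr rfl
      intro t _
      ring
    exact sub_eq_zero.mp this
  rw [← h9, Finset.sum_mul, ← Finset.sum_sub_distrib, Finset.mul_sum]
  apply Finset.sum_congr rfl
  intro t _
  ring

omit [CompleteSpace X] hTc in
/-- an eigenfunctional contradicts density of the orbit -/
theorem no_eigen {z : X} (hz : Dense {x | ∃ t : ℝ, 0 ≤ t ∧ x = T t z}) (ψ : X →SL[(iota : 𝕜 →+* ℂ)] ℂ)
    (l : ℂ) (hψ : ∀ x, ∀ h : ℝ, 0 ≤ h → ψ (T h x) = cexp (h * l) * ψ x) : ∀ x, ψ x = 0 := by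
  have hn : ∀ h : ℝ, 0 ≤ h → ‖ψ (T h z)‖ = Real.exp (h * l.re) * ‖ψ z‖ := by
    intro h hh
    rw [hψ z h hh, norm_mul, norm_cexp_mul]
  have hclosed : ∀ S : Set X, IsClosed S → (∀ t : ℝ, 0 ≤ t → T t z ∈ S) → ∀ x, x ∈ S := by
    intro S hS h x
    have h1 : {x | ∃ t : ℝ, 0 ≤ t ∧ x = T t z} ⊆ S := by
      rintro _ ⟨t, ht, rfl⟩
      exact h t ht
    exact (closure_minimal h1 hS) (hz x)
  rcases le_total 0 l.re with hl | hl
  · have h1 : ∀ x, x ∈ {x : X | ‖ψ z‖ ≤ ‖ψ x‖} := by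
      apply hclosed
      · exact isClosed_le continuous_const ψ.continuous.norm
      · intro t ht
        show ‖ψ z‖ ≤ ‖ψ (T t z)‖
        rw [hn t ht]
        have : 1 ≤ Real.exp (t * l.re) := Real.one_le_exp (by positivity)
        nlinarith [norm_nonneg (ψ z)]
    have h2 : ‖ψ z‖ ≤ ‖ψ (0 : X)‖ := h1 0
    rw [map_zero, norm_zero] at h2
    have h3 : ψ z = 0 := norm_le_zero_iff.mp h2
    have h4 : ∀ x, x ∈ {x : X | ψ x = 0} := by
      apply hclosed
      · exact isClosed_eq ψ.continuous continuous_const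
      · intro t ht
        show ψ (T t z) = 0
        rw [hψ z t ht, h3, mul_zero]
    exact h4
  · have h1 : ∀ x, x ∈ {x : X | ‖ψ x‖ ≤ ‖ψ z‖} := by
      apply hclosed
      · exact isClosed_le ψ.continuous.norm continuous_const
      · intro t ht
        show ‖ψ (T t z)‖ ≤ ‖ψ z‖
        rw [hn t ht]
        have : Real.exp (t * l.re) ≤ 1 := Real.exp_le_one_iff.mpr (mul_nonpos_of_nonneg_of_nonpos ht hl)
        nlinarith [norm_nonneg (ψ z)]
    intro x
    by_contra hx
    have hpos : 0 < ‖ψ x‖ := norm_pos_iff.mpr hx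
    obtain ⟨n, hn'⟩ := exists_nat_gt (‖ψ z‖ / ‖ψ x‖)
    rw [div_lt_iff₀ hpos] at hn'
    have h2 : ‖ψ (((n : ℕ) : 𝕜) • x)‖ ≤ ‖ψ z‖ := h1 _
    rw [map_smulₛₗ, norm_smul, iota_natCast, Complex.norm_natCast] at h2
    linarith

theorem order_le (hTadd : ∀ s t : ℝ, 0 ≤ s → 0 ≤ t → T (s + t) = (T s).comp (T t))
    (hF : ∀ t ∈ F, 0 ≤ t) (hrel : ∀ x, ∑ t ∈ F, c t • T t x = 0)
    {z : X} (hz : Dense {x | ∃ t : ℝ, 0 ≤ t ∧ x = T t z}) (x0 : X) (z0 : ℂ) :
    analyticOrderAt (ep F (fun t => iota (c t))) z0 ≤ analyticOrderAt (G T φ F c x0) z0 := by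
  classical
  by_contra hcon
  push Not at hcon
  have hGan : ∀ x, AnalyticAt ℂ (G T φ F c x) z0 := fun x => (G_differentiable hTc φ x).analyticAt z0
  have hex : ∃ k : ℕ, ∃ x, analyticOrderAt (G T φ F c x) z0 = k := by
    have hne : analyticOrderAt (G T φ F c x0) z0 ≠ ⊤ := ne_top_of_lt hcon
    obtain ⟨k, hk⟩ := ENat.ne_top_iff_exists.mp hne
    exact ⟨k, x0, hk.symm⟩
  set k := Nat.find hex with hk
  obtain ⟨x1, hx1⟩ := Nat.find_spec hex
  rw [← hk] at hx1
  have hkle : ∀ x, (k : ℕ∞) ≤ analyticOrderAt (G T φ F c x) z0 := by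
    intro x
    rcases eq_or_ne (analyticOrderAt (G T φ F c x) z0) ⊤ with h | h
    · rw [h]; exact le_top
    · obtain ⟨j, hj⟩ := ENat.ne_top_iff_exists.mp h
      rw [← hj]
      have : k ≤ j := Nat.find_min' hex ⟨x, hj.symm⟩
      exact_mod_cast this
  have hkep : ((k + 1 : ℕ) : ℕ∞) ≤ analyticOrderAt (ep F (fun t => iota (c t))) z0 := by
    have h1 := (hkle x0).trans_lt hcon
    rw [Nat.cast_add, Nat.cast_one]
    exact Order.add_one_le_of_lt h1
  have hG : ∀ x, ∃ g : ℂ → ℂ, AnalyticAt ℂ g z0 ∧ ∀ᶠ l in 𝓝 z0, G T φ F c x l = (l - z0) ^ k • g l :=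
    fun x => (natCast_le_analyticOrderAt (hGan x)).mp (hkle x)
  choose g hgan hg using hG
  obtain ⟨g2, hg2an, hg2⟩ := (natCast_le_analyticOrderAt (ep_analyticAt F (fun t => iota (c t)) z0)).mp hkep
  -- the sequence
  let ln : ℕ → ℂ := fun n => z0 + ((1 / ((n : ℝ) + 1) : ℝ) : ℂ)
  have hlnsub : ∀ n, ln n - z0 = ((1 / ((n : ℝ) + 1) : ℝ) : ℂ) := fun n => by simp only [ln]; ring
  have hlnne : ∀ n, ln n - z0 ≠ 0 := by
    intro n
    rw [hlnsub]
    rw [Complex.ofReal_ne_zero]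
    positivity
  have hln : Tendsto ln atTop (𝓝 z0) := by
    have h1 : Tendsto (fun n : ℕ => ((1 / ((n : ℝ) + 1) : ℝ) : ℂ)) atTop (𝓝 0) := by
      have := (Complex.continuous_ofReal.tendsto 0).comp (tendsto_one_div_add_atTop_nhds_zero_nat (𝕜 := ℝ))
      rwa [Complex.ofReal_zero] at this
    have h2 := h1.const_add z0
    rwa [add_zero] at h2
  have hlim : ∀ x, Tendsto (fun n => ((ln n - z0) ^ k)⁻¹ * G T φ F c x (ln n)) atTop (𝓝 (g x z0)) := by
    intro x
    have h1 : Tendsto (fun n => g x (ln n)) atTop (𝓝 (g x z0)) := (hgan x).continuousAt.tendsto.comp hln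
    refine h1.congr' ?_
    filter_upwards [hln.eventually (hg x)] with n hn
    rw [hn, smul_eq_mul]
    have := hlnne n
    field_simp
  have hclm := fun l => G_clm (F := F) (c := c) φ hTc hF l
  choose gm hgm using hclm
  let A : ℕ → X →SL[(iota : 𝕜 →+* ℂ)] ℂ := fun n => ((ln n - z0) ^ k)⁻¹ • gm (ln n)
  have hA : Tendsto (fun n x => A n x) atTop (𝓝 (fun x => g x z0)) := by
    rw [tendsto_pi_nhds]
    intro x
    refine (hlim x).congr ?_
    intro n
    simp only [A]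
    rw [smul_apply, hgm, smul_eq_mul]
  let ψ : X →SL[(iota : 𝕜 →+* ℂ)] ℂ := continuousLinearMapOfTendsto A hA
  have hψ : ∀ x, ψ x = g x z0 := fun x => rfl
  have hrel2 : ∀ x, ∀ h : ℝ, 0 ≤ h → ψ (T h x) = cexp (h * z0) * ψ x := by
    intro x h hh
    rw [hψ, hψ]
    refine tendsto_nhds_unique (hlim (T h x)) ?_
    have h1 : Tendsto (fun n => ((ln n - z0) ^ k)⁻¹ * ep F (fun t => iota (c t)) (ln n)) atTop (𝓝 0) := by
      have h2 : Tendsto (fun n => (ln n - z0) * g2 (ln n)) atTop (𝓝 ((z0 - z0) * g2 z0)) :=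
        (hln.sub_const z0).mul (hg2an.continuousAt.tendsto.comp hln)
      rw [sub_self, zero_mul] at h2
      refine h2.congr' ?_
      filter_upwards [hln.eventually hg2] with n hn
      rw [hn, smul_eq_mul, pow_succ]
      have := hlnne n
      field_simp
    have h3 : Tendsto (fun n => Φ T φ (ln n) h x) atTop (𝓝 (Φ T φ z0 h x)) :=
      ((differentiable_Φ hTc φ h x).continuous.tendsto z0).comp hln
    have h4 : Tendsto (fun n => cexp (h * ln n)) atTop (𝓝 (cexp (h * z0))) := by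
      have : Continuous (fun l : ℂ => cexp (h * l)) := by fun_prop
      exact (this.tendsto z0).comp hln
    have h5 := h4.mul ((hlim x).sub (h1.mul h3))
    rw [zero_mul, sub_zero] at h5
    refine h5.congr ?_
    intro n
    rw [G_shift hTc φ hTadd hF hrel x (ln n) hh]
    ring
  have hzero := no_eigen hz ψ z0 hrel2 x1
  rw [hψ] at hzero
  obtain ⟨g', hg'an, hg'ne, hg'⟩ := (hGan x1).analyticOrderAt_eq_natCast.mp hx1
  have h6 : Tendsto (fun n => ((ln n - z0) ^ k)⁻¹ * G T φ F c x1 (ln n)) atTop (𝓝 (g' z0)) := by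
    have h1 : Tendsto (fun n => g' (ln n)) atTop (𝓝 (g' z0)) := hg'an.continuousAt.tendsto.comp hln
    refine h1.congr' ?_
    filter_upwards [hln.eventually hg'] with n hn
    rw [hn, smul_eq_mul]
    have := hlnne n
    field_simp
  have h7 := tendsto_nhds_unique (hlim x1) h6
  rw [hzero] at h7
  exact hg'ne h7.symm

omit hF in
theorem core_false [Nontrivial X] (hT0 : T 0 = ContinuousLinearMap.id 𝕜 X)
    (hTadd : ∀ s t : ℝ, 0 ≤ s → 0 ≤ t → T (s + t) = (T s).comp (T t))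
    (hF : ∀ t ∈ F, 0 ≤ t) (h0 : (0 : ℝ) ∈ F) (hc : ∀ t ∈ F, c t ≠ 0)
    (hrel : ∀ x, ∑ t ∈ F, c t • T t x = 0)
    {z : X} (hz : Dense {x | ∃ t : ℝ, 0 ≤ t ∧ x = T t z}) : False := by
  classical
  obtain ⟨x0, hx0⟩ := exists_ne (0 : X)
  obtain ⟨φ, hφ⟩ := SeparatingDual.exists_ne_zero (R := 𝕜) hx0
  have hne : F.Nonempty := ⟨0, h0⟩
  set N := F.max' hne with hN
  have hNmem : N ∈ F := Finset.max'_mem F hne
  have hNmax : ∀ t ∈ F, t ≤ N := fun t ht => Finset.le_max' F t ht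
  obtain ⟨M, hM0, hM⟩ := exists_bound hTc φ N
  have hG0 : ∀ l, G T φ F c x0 l = 0 := by
    apply quotient_liouville (F := F) (c := fun t => iota (c t)) (N := N) h0 hF (iota_ne_zero (hc 0 h0)) hNmem hNmax
      (iota_ne_zero (hc N hNmem)) (G_differentiable hTc φ x0)
      (C := (∑ t ∈ F, ‖c t‖ * t) * (M * ‖x0‖))
    · intro l hl
      exact G_right φ hNmax hF hM x0 l hl
    · intro l hl
      exact G_left φ hNmax hF hM x0 l hl
    · exact G_lim φ hNmax hF hM0 hM x0
    · exact order_le hTc φ hTadd hF hrel hz x0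
  have hG0' : ∀ h : ℝ, 0 ≤ h → ∀ l, G T φ F c (T h x0) l = 0 := by
    intro h hh
    apply quotient_liouville (F := F) (c := fun t => iota (c t)) (N := N) h0 hF (iota_ne_zero (hc 0 h0)) hNmem hNmax
      (iota_ne_zero (hc N hNmem)) (G_differentiable hTc φ (T h x0))
      (C := (∑ t ∈ F, ‖c t‖ * t) * (M * ‖T h x0‖))
    · intro l hl
      exact G_right φ hNmax hF hM (T h x0) l hl
    · intro l hl
      exact G_left φ hNmax hF hM (T h x0) l hl
    · exact G_lim φ hNmax hF hM0 hM (T h x0)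
    · exact order_le hTc φ hTadd hF hrel hz (T h x0)
  obtain ⟨b, hb⟩ := ep_left (F := F) (c := fun t => iota (c t)) h0 hF (iota_ne_zero (hc 0 h0))
  have hbne : ep F (fun t => iota (c t)) (b : ℂ) ≠ 0 := by
    have h1 := hb (b : ℂ) (by simp)
    intro h
    rw [h, norm_zero] at h1
    have : 0 < ‖iota (c 0)‖ := norm_pos_iff.mpr (iota_ne_zero (hc 0 h0))
    linarith
  have hΦ : ∀ h : ℝ, 0 ≤ h → Φ T φ (b : ℂ) h x0 = 0 := by
    intro h hh
    have h1 := G_shift hTc φ hTadd hF hrel x0 (b : ℂ) hh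
    rw [hG0' h hh, hG0, zero_sub] at h1
    have h2 : cexp (h * (b : ℂ)) ≠ 0 := Complex.exp_ne_zero _
    have h3 := (mul_eq_zero.mp h1.symm).resolve_left h2
    rw [neg_eq_zero] at h3
    exact (mul_eq_zero.mp h3).resolve_left hbne
  have hu : ∀ h : ℝ, 0 < h → φ (T h x0) = 0 := by
    intro h hh
    have hw := continuous_w hTc φ (b : ℂ) x0
    have h1 : HasDerivAt (fun t => Φ T φ (b : ℂ) t x0) (w T φ (b : ℂ) x0 h) h :=
      intervalIntegral.integral_hasDerivAt_right (hw.intervalIntegrable _ _)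
        (hw.stronglyMeasurableAtFilter _ _) hw.continuousAt
    have h2 : HasDerivAt (fun t => Φ T φ (b : ℂ) t x0) 0 h := by
      have h3 : (fun t => Φ T φ (b : ℂ) t x0) =ᶠ[𝓝 h] fun _ => (0 : ℂ) := by
        filter_upwards [lt_mem_nhds hh] with t ht
        exact hΦ t ht.le
      exact (hasDerivAt_const h (0 : ℂ)).congr_of_eventuallyEq h3
    have h4 := h1.unique h2
    unfold w u at h4
    have h5 := (mul_eq_zero.mp h4).resolve_left (Complex.exp_ne_zero _)
    by_contra h6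
    exact iota_ne_zero h6 h5
  -- let the time tend to zero
  have hlim : Tendsto (fun n : ℕ => φ (T (1 / ((n : ℝ) + 1)) x0)) atTop (𝓝 (φ (T 0 x0))) := by
    have h1 : Continuous (fun t : ℝ => φ (T t x0)) := φ.continuous.comp (hTc x0)
    exact (h1.tendsto 0).comp (tendsto_one_div_add_atTop_nhds_zero_nat (𝕜 := ℝ))
  have hlim2 : Tendsto (fun n : ℕ => φ (T (1 / ((n : ℝ) + 1)) x0)) atTop (𝓝 0) := by
    have : (fun n : ℕ => φ (T (1 / ((n : ℝ) + 1)) x0)) = fun _ => 0 := by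
      funext n
      exact hu _ (by positivity)
    rw [this]
    exact tendsto_const_nhds
  have h8 := tendsto_nhds_unique hlim hlim2
  rw [hT0] at h8
  exact hφ h8

end core


section final

variable {𝕜 : Type*} [RCLike 𝕜] {X : Type*} [NormedAddCommGroup X] [NormedSpace 𝕜 X]

/-- a closed subspace that contains a tail of the orbit is everything -/
theorem tail_dense {T : ℝ → X →L[𝕜] X} (hTc : ∀ x, Continuous (fun t => T t x)) {z : X}
    (hz : Dense {x | ∃ t : ℝ, 0 ≤ t ∧ x = T t z}) (Y : Submodule 𝕜 X) (hY : IsClosed (Y : Set X))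
    (t0 : ℝ) (h : ∀ s, t0 ≤ s → T s z ∈ Y) : ∀ x, x ∈ Y := by
  by_contra hcon
  push Not at hcon
  obtain ⟨y, hy⟩ := hcon
  have hK : IsCompact ((fun t => T t z) '' Icc 0 t0) := isCompact_Icc.image (hTc z)
  have hcl : IsClosed ((Y : Set X) ∪ ((fun t => T t z) '' Icc 0 t0)) := hY.union hK.isClosed
  have hsub : {x | ∃ t : ℝ, 0 ≤ t ∧ x = T t z} ⊆ (Y : Set X) ∪ ((fun t => T t z) '' Icc 0 t0) := by
    rintro _ ⟨t, ht, rfl⟩
    rcases le_total t0 t with h1 | h1
    · left; exact h t h1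
    · right; exact ⟨t, ⟨ht, h1⟩, rfl⟩
  have hall : ∀ x, x ∈ (Y : Set X) ∪ ((fun t => T t z) '' Icc 0 t0) := fun x =>
    (closure_minimal hsub hcl) (hz x)
  obtain ⟨C, hC⟩ := hK.isBounded.exists_norm_le
  have hy0 : y ≠ 0 := by
    rintro rfl
    exact hy Y.zero_mem
  have hpos : 0 < ‖y‖ := norm_pos_iff.mpr hy0
  obtain ⟨n, hn⟩ := exists_nat_gt (max (C / ‖y‖) 1)
  have hn1 : (1 : ℝ) < n := (le_max_right _ _).trans_lt hn
  have hn2 : C / ‖y‖ < n := (le_max_left _ _).trans_lt hn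
  rw [div_lt_iff₀ hpos] at hn2
  have hnne : ((n : ℕ) : 𝕜) ≠ 0 := by
    have : n ≠ 0 := by
      rintro rfl
      norm_num at hn1
    exact_mod_cast this
  have hmem : ((n : ℕ) : 𝕜) • y ∉ Y := by
    rw [Submodule.smul_mem_iff _ hnne]
    exact hy
  rcases hall (((n : ℕ) : 𝕜) • y) with h1 | h1
  · exact hmem h1
  · have h2 := hC _ h1
    rw [norm_smul, RCLike.norm_natCast] at h2
    linarith

theorem family_linearIndependent [CompleteSpace X] [Nontrivial X] (T : ℝ → X →L[𝕜] X)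
    (hT0 : T 0 = ContinuousLinearMap.id 𝕜 X)
    (hTadd : ∀ s t : ℝ, 0 ≤ s → 0 ≤ t → T (s + t) = (T s).comp (T t))
    (hTc : ∀ x : X, ContinuousOn (fun t => T t x) (Set.Ici 0)) (z : X)
    (hz : Dense {x : X | ∃ t : ℝ, 0 ≤ t ∧ x = T t z}) :
    LinearIndependent 𝕜 (fun t : {t : ℝ // 0 ≤ t} => T t z) := by
  classical
  rw [linearIndependent_iff']
  intro s g hsum i hi
  by_contra hgi
  -- pass to times with nonzero coefficient
  set s' := s.filter (fun j => g j ≠ 0) with hs'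
  have hs'ne : s'.Nonempty := ⟨i, Finset.mem_filter.mpr ⟨hi, hgi⟩⟩
  have hsum' : ∑ j ∈ s', g j • T j z = 0 := by
    rw [← hsum]
    apply Finset.sum_subset (Finset.filter_subset _ _)
    intro j hj hj'
    have : g j = 0 := by
      by_contra h
      exact hj' (Finset.mem_filter.mpr ⟨hj, h⟩)
    rw [this, zero_smul]
  obtain ⟨j0, hj0, hmin⟩ := s'.exists_min_image (fun j => (j : ℝ)) hs'ne
  set t0 : ℝ := (j0 : ℝ) with ht0
  have ht0nn : 0 ≤ t0 := j0.2
  -- the shifted set of times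
  let F : Finset ℝ := s'.image (fun j : {t : ℝ // 0 ≤ t} => (j : ℝ) - t0)
  let c : ℝ → 𝕜 := fun t => if h : 0 ≤ t + t0 then g ⟨t + t0, h⟩ else 0
  have hinj : ∀ j ∈ s', ∀ j' ∈ s', (j : ℝ) - t0 = (j' : ℝ) - t0 → j = j' := by
    intro j _ j' _ h
    apply Subtype.ext
    linarith
  have hcval : ∀ j ∈ s', c ((j : ℝ) - t0) = g j := by
    intro j _
    simp only [c, sub_add_cancel]
    rw [dif_pos j.2]
  have hF : ∀ t ∈ F, 0 ≤ t := by
    intro t ht
    obtain ⟨j, hj, rfl⟩ := Finset.mem_image.mp ht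
    have := hmin j hj
    linarith
  have h0 : (0 : ℝ) ∈ F := Finset.mem_image.mpr ⟨j0, hj0, by simp [ht0]⟩
  have hc : ∀ t ∈ F, c t ≠ 0 := by
    intro t ht
    obtain ⟨j, hj, rfl⟩ := Finset.mem_image.mp ht
    rw [hcval j hj]
    exact (Finset.mem_filter.mp hj).2
  -- continuous version on the whole line
  let T' : ℝ → X →L[𝕜] X := fun t => T |t|
  have hT'eq : ∀ t, 0 ≤ t → T' t = T t := by
    intro t ht
    simp only [T', abs_of_nonneg ht]
  have hT'0 : T' 0 = ContinuousLinearMap.id 𝕜 X := by rw [hT'eq 0 le_rfl, hT0]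
  have hT'add : ∀ s t : ℝ, 0 ≤ s → 0 ≤ t → T' (s + t) = (T' s).comp (T' t) := by
    intro s t hs ht
    rw [hT'eq s hs, hT'eq t ht, hT'eq (s + t) (add_nonneg hs ht), hTadd s t hs ht]
  have hT'c : ∀ x, Continuous (fun t => T' t x) := by
    intro x
    exact (hTc x).comp_continuous continuous_abs (fun t => abs_nonneg t)
  have hz' : Dense {x : X | ∃ t : ℝ, 0 ≤ t ∧ x = T' t z} := by
    have : {x : X | ∃ t : ℝ, 0 ≤ t ∧ x = T' t z} = {x : X | ∃ t : ℝ, 0 ≤ t ∧ x = T t z} := by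
      ext x
      constructor
      · rintro ⟨t, ht, h⟩
        exact ⟨t, ht, by rw [h, hT'eq t ht]⟩
      · rintro ⟨t, ht, h⟩
        exact ⟨t, ht, by rw [h, hT'eq t ht]⟩
    rw [this]
    exact hz
  -- the operator relation
  let B : X →L[𝕜] X := ∑ t ∈ F, c t • T' t
  have hB : ∀ x, B x = ∑ t ∈ F, c t • T' t x := by
    intro x
    simp [B]
  have hBcomm : ∀ s, 0 ≤ s → ∀ x, B (T' s x) = T' s (B x) := by
    intro s hs x
    rw [hB, hB, map_sum]
    apply Finset.sum_congr rfl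
    intro t ht
    rw [map_smul]
    congr 1
    rw [← ContinuousLinearMap.comp_apply, ← ContinuousLinearMap.comp_apply, ← hT'add t s (hF t ht) hs,
      ← hT'add s t hs (hF t ht), add_comm]
  have hB0 : B (T' t0 z) = 0 := by
    rw [hB, ← hsum', Finset.sum_image hinj]
    apply Finset.sum_congr rfl
    intro j hj
    rw [hcval j hj]
    congr 1
    have h1 : (0 : ℝ) ≤ (j : ℝ) - t0 := hF _ (Finset.mem_image_of_mem _ hj)
    rw [← ContinuousLinearMap.comp_apply, ← hT'add _ _ h1 ht0nn, sub_add_cancel, hT'eq _ j.2]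
  have hker : ∀ x, x ∈ LinearMap.ker (B : X →ₗ[𝕜] X) := by
    apply tail_dense hT'c hz' (LinearMap.ker (B : X →ₗ[𝕜] X)) (ContinuousLinearMap.isClosed_ker B) t0
    intro s hs
    have h1 : T' s z = T' (s - t0) (T' t0 z) := by
      rw [← ContinuousLinearMap.comp_apply, ← hT'add _ _ (sub_nonneg.mpr hs) ht0nn, sub_add_cancel]
    show B (T' s z) = 0
    rw [h1, hBcomm _ (sub_nonneg.mpr hs), hB0, map_zero]
  have hrel : ∀ x, ∑ t ∈ F, c t • T' t x = 0 := by
    intro x
    rw [← hB]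
    exact hker x
  exact core_false hT'c hT'0 hT'add hF h0 hc hrel hz'

/-- The orbit of a hypercyclic vector of a strongly continuous operator semigroup on a
(real or complex) Banach space is linearly independent. -/
theorem result :
    ∀ (𝕜 : Type*) [RCLike 𝕜] (X : Type*) [NormedAddCommGroup X] [NormedSpace 𝕜 X]
      [CompleteSpace X] [Nontrivial X] (T : ℝ → X →L[𝕜] X),
      T 0 = ContinuousLinearMap.id 𝕜 X →
      (∀ s t : ℝ, 0 ≤ s → 0 ≤ t → T (s + t) = (T s).comp (T t)) →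
      (∀ x : X, ContinuousOn (fun t => T t x) (Set.Ici 0)) →
      ∀ z : X, Dense {x : X | ∃ t : ℝ, 0 ≤ t ∧ x = T t z} →
        LinearIndependent 𝕜 (fun x : {x : X | ∃ t : ℝ, 0 ≤ t ∧ x = T t z} => (x : X)) := by
  intro 𝕜 _ X _ _ _ _ T hT0 hTadd hTc z hz
  have h1 := (family_linearIndependent T hT0 hTadd hTc z hz).linearIndepOn_id
  have h2 : Set.range (fun t : {t : ℝ // 0 ≤ t} => T t z) = {x : X | ∃ t : ℝ, 0 ≤ t ∧ x = T t z} := by
    ext x
    constructor
    · rintro ⟨t, rfl⟩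
      exact ⟨t, t.2, rfl⟩
    · rintro ⟨t, ht, rfl⟩
      exact ⟨⟨t, ht⟩, rfl⟩
  rw [h2] at h1
  exact h1

end final

end Pool.Agent.Results.MP_84e5ad_an.LinIndepOrbit
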